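import Pool.Agent.H332.HT.Defs

/-!
# The parametrisation of the boundary of the shadow
-/

set_option autoImplicit false

open Topology

namespace Pool.Agent.H271.HTPar

open Pool.Agent.H332.HT

/-- the unit vector -/
noncomputable def e (t : ℝ) : V2 := (Real.cos t, Real.sin t)

lemma e_ne (t : ℝ) : e t ≠ 0 := by
  intro h
  have h1 : Real.cos t = 0 := congrArg Prod.fst h
  have h2 : Real.sin t = 0 := congrArg Prod.snd h
  have h3 := Real.sin_sq_add_cos_sq t
  rw [h1, h2] at h3
  norm_num at h3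

lemma e_cont : Continuous e := Real.continuous_cos.prodMk Real.continuous_sin

lemma e_pi (t : ℝ) : e (t + Real.pi) = -e t := by
  unfold e
  rw [Real.cos_add_pi, Real.sin_add_pi]
  rfl

lemma exists_polar (p : V2) (hp : p ≠ 0) : ∃ r t : ℝ, 0 < r ∧ p = r • e t := by
  set z : ℂ := ⟨p.1, p.2⟩ with hz
  have hz0 : z ≠ 0 := by
    intro h
    apply hp
    have h1 : p.1 = 0 := congrArg Complex.re h
    have h2 : p.2 = 0 := congrArg Complex.im h
    exact Prod.ext h1 h2
  refine ⟨‖z‖, Complex.arg z, norm_pos_iff.2 hz0, ?_⟩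
  refine Prod.ext ?_ ?_
  · exact (Complex.norm_mul_cos_arg z).symm
  · exact (Complex.norm_mul_sin_arg z).symm

theorem par (hP : S_P) : S_par := by
  intro K hK
  obtain ⟨hc, hcv, hsym, h0, -, -, -⟩ := hP K hK
  have hnhds : P K ∈ 𝓝 (0 : V2) := mem_interior_iff_mem_nhds.1 h0
  have habs : Absorbent ℝ (P K) := absorbent_nhds_zero hnhds
  have hb : Bornology.IsVonNBounded ℝ (P K) := hc.isVonNBounded ℝ
  have hcont : Continuous (gauge (P K)) := continuous_gauge hcv hnhds
  have hpos : ∀ t, 0 < gauge (P K) (e t) := fun t => (gauge_pos habs hb).2 (e_ne t)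
  set q : ℝ → V2 := fun t => (gauge (P K) (e t))⁻¹ • e t with hq
  have hq1 : ∀ t, gauge (P K) (q t) = 1 := by
    intro t
    rw [hq]
    simp only
    rw [gauge_smul_of_nonneg (inv_nonneg.2 (hpos t).le), smul_eq_mul,
      inv_mul_cancel₀ (hpos t).ne']
  refine ⟨q, ?_, ?_, ?_, ?_, ?_, ?_⟩
  · exact ((hcont.comp e_cont).inv₀ fun t => (hpos t).ne').smul e_cont
  · intro t
    have h1 := (gauge_le_one_iff_mem_closure hcv hnhds).1 (hq1 t).le
    rwa [hc.isClosed.closure_eq] at h1
  · intro t h1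
    have h2 := (gauge_lt_one_iff_mem_interior hcv hnhds).2 h1
    rw [hq1 t] at h2
    exact lt_irrefl _ h2
  · intro t
    simp only [hq]
    rw [e_pi, gauge_neg hsym, smul_neg]
  · intro s t hst hts
    have h1 : det (q s) (q t) = (gauge (P K) (e s))⁻¹ * (gauge (P K) (e t))⁻¹ *
        Real.sin (t - s) := by
      rw [Real.sin_sub]
      simp only [hq, det, e, Prod.smul_mk, smul_eq_mul]
      ring
    rw [h1]
    have h2 : 0 < Real.sin (t - s) := Real.sin_pos_of_pos_of_lt_pi (by linarith) (by linarith)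
    have h3 := hpos s
    have h4 := hpos t
    positivity
  · intro p hp hp'
    have hp0 : p ≠ 0 := by
      rintro rfl
      exact hp' h0
    obtain ⟨r, t, hr, hpt⟩ := exists_polar p hp0
    have h1 : gauge (P K) p = 1 := by
      apply le_antisymm
      · exact gauge_le_one_of_mem hp
      · by_contra h2
        exact hp' ((gauge_lt_one_iff_mem_interior hcv hnhds).1 (not_le.1 h2))
    refine ⟨t, ?_⟩
    rw [hpt, gauge_smul_of_nonneg hr.le, smul_eq_mul] at h1
    have h2 : (gauge (P K) (e t))⁻¹ = r := (eq_inv_of_mul_eq_one_left h1).symm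
    simp only [hq]
    rw [h2, hpt]

end Pool.Agent.H271.HTPar
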